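import Pool.Agent.T9h72.KU.Spec

/-!
# The distribution function is concave to the right of the mean (piece CONC)
-/

set_option autoImplicit false

open MeasureTheory ProbabilityTheory Set Filter Topology Pool.Agent.R190.KR
open scoped ENNReal

namespace Pool.Agent.T9h66.KU

open Pool.Agent.T9h72.KU

/-- **CONC** -/
theorem conc : S_CONC := by
  intro μ hμ
  have : IsProbabilityMeasure μ := hμ.sym.prob
  obtain ⟨p, hp, hμp, -, hanti⟩ := hμ.dens
  have key : ∀ x y : ℝ, x ≤ y → cdf μ y - cdf μ x = μ.real (Ioc x y) := by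
    intro x y hxy
    rw [cdf_eq_real, cdf_eq_real, ← Iic_union_Ioc_eq_Iic hxy,
      measureReal_union (Set.Iic_disjoint_Ioc le_rfl) measurableSet_Ioc]
    ring
  have happ : ∀ x y : ℝ, μ (Ioc x y) = ∫⁻ t in Ioc x y, p t := by
    intro x y
    conv_lhs => rw [hμp]
    rw [withDensity_apply _ measurableSet_Ioc]
  refine concaveOn_of_slope_anti_adjacent (convex_Ici _) ?_
  intro x y z hx hz hxy hyz
  have hmy : mean μ < y := lt_of_le_of_lt hx hxy
  have hlow : p y * ENNReal.ofReal (y - x) ≤ μ (Ioc x y) := by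
    rw [happ, ← Real.volume_Ioc, ← setLIntegral_const]
    refine setLIntegral_mono hp fun t ht => hanti ?_ hmy ht.2
    exact lt_of_le_of_lt hx ht.1
  have hupp : μ (Ioc y z) ≤ p y * ENNReal.ofReal (z - y) := by
    rw [happ, ← Real.volume_Ioc, ← setLIntegral_const]
    refine setLIntegral_mono measurable_const fun t ht => hanti hmy ?_ ht.1.le
    exact lt_trans hmy ht.1
  have hpy : p y ≠ ⊤ := by
    intro h
    rw [h, ENNReal.top_mul (by simpa using hxy)] at hlow
    exact absurd (top_le_iff.mp hlow) (measure_ne_top μ _)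
  have hlow' : (p y).toReal * (y - x) ≤ μ.real (Ioc x y) := by
    have := ENNReal.toReal_mono (measure_ne_top μ _) hlow
    rwa [ENNReal.toReal_mul, ENNReal.toReal_ofReal (by linarith)] at this
  have hupp' : μ.real (Ioc y z) ≤ (p y).toReal * (z - y) := by
    have := ENNReal.toReal_mono (ENNReal.mul_ne_top hpy ENNReal.ofReal_ne_top) hupp
    rwa [ENNReal.toReal_mul, ENNReal.toReal_ofReal (by linarith)] at this
  rw [key y z hyz.le, key x y hxy.le]
  have h1 : μ.real (Ioc y z) / (z - y) ≤ (p y).toReal := by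
    rw [div_le_iff₀ (by linarith)]
    exact hupp'
  have h2 : (p y).toReal ≤ μ.real (Ioc x y) / (y - x) := by
    rw [le_div_iff₀ (by linarith)]
    exact hlow'
  exact h1.trans h2

end Pool.Agent.T9h66.KU
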