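import Pool.Agent.T9h72.KU.Spec2

/-!
# A convex function orthogonal to the affine functions vanishes (piece REG)
-/

set_option autoImplicit false

open MeasureTheory Set Filter Topology

namespace Pool.Agent.T9h66.KU

open Pool.Agent.T9h72.KU

/-- **REG** -/
theorem reg : S_REG := by
  intro f p hp hc hconv hfp h0 h1
  set Z : Set ℝ := {x | x ∈ Icc p 1 ∧ f x ≤ 0} with hZ
  set z := sSup Z with hz
  have hpZ : p ∈ Z := ⟨⟨le_rfl, hp.le⟩, hfp.le⟩
  have hbdd : BddAbove Z := ⟨1, fun x hx => hx.1.2⟩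
  have hpz : p ≤ z := le_csSup hbdd hpZ
  have hz1 : z ≤ 1 := csSup_le ⟨p, hpZ⟩ fun x hx => hx.1.2
  have hlow : ∀ x ∈ Icc p 1, x < z → f x ≤ 0 := by
    intro x hx hxz
    obtain ⟨y, hy, hxy⟩ := exists_lt_of_lt_csSup ⟨p, hpZ⟩ hxz
    have hpy : 0 < y - p := by linarith [hx.1]
    have hcomb := hconv.2 (show p ∈ Icc p 1 from ⟨le_rfl, hp.le⟩) hy.1
      (show 0 ≤ (y - x) / (y - p) from div_nonneg (by linarith) hpy.le)
      (show 0 ≤ (x - p) / (y - p) from div_nonneg (by linarith [hx.1]) hpy.le)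
      (by field_simp; ring)
    have hx' : ((y - x) / (y - p)) • p + ((x - p) / (y - p)) • y = x := by
      rw [smul_eq_mul, smul_eq_mul]
      field_simp
      ring
    rw [hx', hfp, smul_zero, zero_add, smul_eq_mul] at hcomb
    exact hcomb.trans (mul_nonpos_of_nonneg_of_nonpos
      (div_nonneg (by linarith [hx.1]) hpy.le) hy.2)
  have hupp : ∀ x ∈ Icc p 1, z < x → 0 < f x := by
    intro x hx hxz
    by_contra hn
    exact absurd (le_csSup hbdd (show x ∈ Z from ⟨hx, not_lt.mp hn⟩)) (not_le.mpr hxz)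
  have hgc : ContinuousOn (fun x => f x * (x - z)) (Icc p 1) :=
    hc.mul ((continuous_id.sub continuous_const).continuousOn)
  have hgn : ∀ x ∈ Icc p 1, 0 ≤ f x * (x - z) := by
    intro x hx
    rcases lt_trichotomy x z with h | h | h
    · exact mul_nonneg_of_nonpos_of_nonpos (hlow x hx h) (by linarith)
    · rw [h, sub_self, mul_zero]
    · exact mul_nonneg (hupp x hx h).le (by linarith)
  have hi1 : IntervalIntegrable f volume p 1 := by
    apply ContinuousOn.intervalIntegrable
    rwa [uIcc_of_le hp.le]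
  have hi2 : IntervalIntegrable (fun x => f x * (x - p)) volume p 1 := by
    apply ContinuousOn.intervalIntegrable
    rw [uIcc_of_le hp.le]
    exact hc.mul ((continuous_id.sub continuous_const).continuousOn)
  have hint : ∫ x in p..1, f x * (x - z) = 0 := by
    have : ∀ x, f x * (x - z) = f x * (x - p) - (z - p) * f x := fun x => by ring
    simp_rw [this]
    rw [intervalIntegral.integral_sub hi2 (hi1.const_mul _), intervalIntegral.integral_const_mul,
      h0, h1, mul_zero, sub_zero]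
  have hg0 : ∀ x ∈ Icc p 1, f x * (x - z) = 0 := by
    intro x hx
    by_contra hne
    have hpos : 0 < f x * (x - z) := lt_of_le_of_ne (hgn x hx) (Ne.symm hne)
    have := intervalIntegral.integral_pos hp hgc (fun y hy => hgn y ⟨hy.1.le, hy.2⟩) ⟨x, hx, hpos⟩
    rw [hint] at this
    exact lt_irrefl _ this
  have hf0 : ∀ x ∈ Icc p 1, x ≠ z → f x = 0 := by
    intro x hx hxz
    rcases mul_eq_zero.mp (hg0 x hx) with h | h
    · exact h
    · exact absurd (sub_eq_zero.mp h) hxz
  have hz1' : z = 1 := by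
    by_contra hne
    have hlt : z < 1 := lt_of_le_of_ne hz1 hne
    have h2 := hupp 1 ⟨hp.le, le_rfl⟩ hlt
    rw [hf0 1 ⟨hp.le, le_rfl⟩ (Ne.symm hne)] at h2
    exact lt_irrefl _ h2
  intro x hx
  by_cases hxz : x = z
  · rw [hz1'] at hxz
    rw [hxz]
    -- continuity at `1`
    have hcl : (1 : ℝ) ∈ closure (Ico p 1) := by
      rw [closure_Ico hp.ne]
      exact ⟨hp.le, le_rfl⟩
    have hmaps : MapsTo f (Ico p 1) ({0} : Set ℝ) := by
      intro y hy
      exact hf0 y ⟨hy.1, hy.2.le⟩ (by rw [hz1']; exact hy.2.ne)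
    have hcw : ContinuousWithinAt f (Ico p 1) 1 :=
      (hc 1 ⟨hp.le, le_rfl⟩).mono Ico_subset_Icc_self
    have := hcw.mem_closure hcl hmaps
    simpa using this
  · exact hf0 x hx hxz

end Pool.Agent.T9h66.KU
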